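import Pool.Agent.K1H53.EX.Plan

/-! # Piece FLUX: no discrepancies of opposite sign in an invariant coupling -/

set_option autoImplicit false

open MeasureTheory Filter Topology

namespace Pool.Agent.K1H7.EX

open Pool.Agent.K1H53.EX

/-- Indicator of a discrepancy. -/
def dd (s : Bool × Bool) : ℝ := if s.1 ≠ s.2 then 1 else 0

/-- Two discrepancies of opposite sign. -/
def opp (s t : Bool × Bool) : Prop :=
  (s = (true, false) ∧ t = (false, true)) ∨ (s = (false, true) ∧ t = (true, false))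

instance (s t : Bool × Bool) : Decidable (opp s t) := by unfold opp; infer_instance

/-- Indicator of two discrepancies of opposite sign. -/
def oo (s t : Bool × Bool) : ℝ := if opp s t then 1 else 0

theorem dd_nonneg (s : Bool × Bool) : 0 ≤ dd s := by unfold dd; split_ifs <;> norm_num

theorem dd_le_one (s : Bool × Bool) : dd s ≤ 1 := by unfold dd; split_ifs <;> norm_num

theorem oo_nonneg (s t : Bool × Bool) : 0 ≤ oo s t := by unfold oo; split_ifs <;> norm_num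

theorem oo_self (s : Bool × Bool) : oo s s = 0 := by
  obtain ⟨a, b⟩ := s
  cases a <;> cases b <;> simp [oo, opp]

theorem dd_sum (s t : Bool × Bool) :
    dd (a2 (s, t)).1 + dd (a2 (s, t)).2 ≤ dd s + dd t - 2 * oo s t := by
  obtain ⟨a, b⟩ := s
  obtain ⟨c, d⟩ := t
  cases a <;> cases b <;> cases c <;> cases d <;> norm_num [dd, a2, a1, oo, opp]

theorem dd_fst (s t : Bool × Bool) : dd (a2 (s, t)).1 - dd s ≤ dd t := by
  have h := dd_sum s t
  have h1 := oo_nonneg s t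
  have h2 := dd_nonneg (a2 (s, t)).2
  linarith

theorem dd_snd (s t : Bool × Bool) : dd (a2 (s, t)).2 - dd t ≤ dd s := by
  have h := dd_sum s t
  have h1 := oo_nonneg s t
  have h2 := dd_nonneg (a2 (s, t)).1
  linarith

theorem continuous_dd (x : ℤ) : Continuous fun ω : Cfg2 => dd (ω x) :=
  (continuous_of_discreteTopology (f := dd)).comp (continuous_apply x)

theorem continuous_oo (x y : ℤ) : Continuous fun ω : Cfg2 => oo (ω x) (ω y) := by
  have h : Continuous (fun s : (Bool × Bool) × (Bool × Bool) => oo s.1 s.2) :=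
    continuous_of_discreteTopology
  have h2 : Continuous (fun ω : Cfg2 => (ω x, ω y)) :=
    (continuous_apply x).prodMk (continuous_apply y)
  exact h.comp h2

/-- Number of discrepancies in the finite set `Λ`. -/
noncomputable def Fn (Λ : Finset ℤ) : C(Cfg2, ℝ) :=
  ⟨fun ω => ∑ x ∈ Λ, dd (ω x), continuous_finsetSum _ fun x _ => continuous_dd x⟩

theorem Fn_apply (Λ : Finset ℤ) (ω : Cfg2) : Fn Λ ω = ∑ x ∈ Λ, dd (ω x) := rfl

theorem Fn_dep (Λ : Finset ℤ) : DependsOn (fun ω => Fn Λ ω) (Λ : Set ℤ) := by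
  intro ω ω' h
  simp only [Fn_apply]
  refine Finset.sum_congr rfl fun x hx => ?_
  rw [h x (by simpa using hx)]

/-- the contribution of the pairs across the boundary of `Λ` -/
noncomputable def cc (Λ : Finset ℤ) (u v : ℤ) (ω : Cfg2) : ℝ :=
  (if u ∈ Λ ∧ v ∉ Λ then dd (ω v) else 0) + (if u ∉ Λ ∧ v ∈ Λ then dd (ω u) else 0)

/-- the boundary indicator -/
noncomputable def bb (Λ : Finset ℤ) (u v : ℤ) : ℝ :=
  (if u ∈ Λ ∧ v ∉ Λ then 1 else 0) + (if u ∉ Λ ∧ v ∈ Λ then 1 else 0)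

theorem cc_nonneg (Λ : Finset ℤ) (u v : ℤ) (ω : Cfg2) : 0 ≤ cc Λ u v ω := by
  unfold cc
  have h1 := dd_nonneg (ω u)
  have h2 := dd_nonneg (ω v)
  split_ifs <;> linarith

theorem cc_le (Λ : Finset ℤ) (u v : ℤ) (ω : Cfg2) : cc Λ u v ω ≤ bb Λ u v := by
  unfold cc bb
  have h1 := dd_le_one (ω u)
  have h2 := dd_le_one (ω v)
  split_ifs <;> linarith

theorem bb_nonneg (Λ : Finset ℤ) (u v : ℤ) : 0 ≤ bb Λ u v := by
  unfold bb
  split_ifs <;> norm_num

theorem Fn_diff (Λ : Finset ℤ) (u v : ℤ) (huv : u ≠ v) (ω : Cfg2) :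
    Fn Λ (T a2 u v ω) - Fn Λ ω =
      (if u ∈ Λ then dd (a2 (ω u, ω v)).1 - dd (ω u) else 0) +
      (if v ∈ Λ then dd (a2 (ω u, ω v)).2 - dd (ω v) else 0) := by
  simp only [Fn_apply]
  rw [← Finset.sum_sub_distrib]
  have key : ∀ x ∈ Λ, dd (T a2 u v ω x) - dd (ω x) =
      (if x = u then dd (a2 (ω u, ω v)).1 - dd (ω u) else 0) +
      (if x = v then dd (a2 (ω u, ω v)).2 - dd (ω v) else 0) := by
    intro x _
    unfold T
    rw [if_neg huv]
    by_cases hxv : x = v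
    · subst hxv
      have hxu : x ≠ u := fun h => huv h.symm
      simp [hxu]
    · by_cases hxu : x = u
      · subst hxu
        simp [hxv]
      · simp [hxv, hxu]
  rw [Finset.sum_congr rfl key, Finset.sum_add_distrib, Finset.sum_ite_eq', Finset.sum_ite_eq']

theorem Fn_diff_le (Λ : Finset ℤ) (u v : ℤ) (ω : Cfg2) :
    Fn Λ (T a2 u v ω) - Fn Λ ω ≤
      (if u ∈ Λ ∧ v ∈ Λ then - (2 * oo (ω u) (ω v)) else 0) + cc Λ u v ω := by
  by_cases huv : u = v
  · subst huv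
    have h0 : T a2 u u ω = ω := by simp [T]
    rw [h0, oo_self]
    have := cc_nonneg Λ u u ω
    simpa using this
  · rw [Fn_diff Λ u v huv]
    have h1 := dd_sum (ω u) (ω v)
    have h2 := dd_fst (ω u) (ω v)
    have h3 := dd_snd (ω u) (ω v)
    unfold cc
    by_cases hu : u ∈ Λ <;> by_cases hv : v ∈ Λ <;> simp only [hu, hv, if_true, if_false,
      and_true, and_false, not_true_eq_false, not_false_eq_true] <;> linarith

/-- the absolute value of the increment is small -/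
theorem Fn_diff_zero (Λ : Finset ℤ) (u v : ℤ) (hu : u ∉ Λ) (hv : v ∉ Λ) (ω : Cfg2) :
    Fn Λ (T a2 u v ω) - Fn Λ ω = 0 := by
  by_cases huv : u = v
  · subst huv
    have h0 : T a2 u u ω = ω := by simp [T]
    rw [h0, sub_self]
  · rw [Fn_diff Λ u v huv]
    simp [hu, hv]

/-! ### boundary sums -/

/-- reindexing of the pairs by the difference and the first site -/
def e1 : ℤ × ℤ ≃ ℤ × ℤ where
  toFun r := (r.2, r.2 + r.1)
  invFun q := (q.2 - q.1, q.1)
  left_inv r := by ext <;> simp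
  right_inv q := by ext <;> simp

/-- reindexing of the pairs by the difference and the second site -/
def e2 : ℤ × ℤ ≃ ℤ × ℤ where
  toFun r := (r.2 - r.1, r.2)
  invFun q := (q.2 - q.1, q.2)
  left_inv r := by ext <;> simp
  right_inv q := by ext <;> simp

theorem summ1 (p : ℤ → ℝ) (hp : ∀ m, 0 ≤ p m) (hs : Summable p) (Λ : Finset ℤ) :
    Summable fun q : ℤ × ℤ => p (q.2 - q.1) * (if q.1 ∈ Λ then (1:ℝ) else 0) := by
  rw [← e1.summable_iff]
  have h : Summable fun u : ℤ => if u ∈ Λ then (1:ℝ) else 0 :=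
    summable_of_ne_finset_zero (s := Λ) fun u hu => by simp [hu]
  refine (hs.mul_of_nonneg h hp fun u => by dsimp only; split_ifs <;> norm_num).congr fun r => ?_
  simp [e1]

theorem summ2 (p : ℤ → ℝ) (hp : ∀ m, 0 ≤ p m) (hs : Summable p) (Λ : Finset ℤ) :
    Summable fun q : ℤ × ℤ => p (q.2 - q.1) * (if q.2 ∈ Λ then (1:ℝ) else 0) := by
  rw [← e2.summable_iff]
  have h : Summable fun u : ℤ => if u ∈ Λ then (1:ℝ) else 0 :=
    summable_of_ne_finset_zero (s := Λ) fun u hu => by simp [hu]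
  refine (hs.mul_of_nonneg h hp fun u => by dsimp only; split_ifs <;> norm_num).congr fun r => ?_
  simp [e2]

/-- the box -/
noncomputable def box (n : ℕ) : Finset ℤ := Finset.Icc (-(n : ℤ)) n

/-- the sites `u` for which the pair `(u, u + m)` crosses the boundary of the box -/
noncomputable def bs (n : ℕ) (m : ℤ) : Finset ℤ :=
  (Finset.Ioc ((n : ℤ) - m) n ∪ Finset.Ico (-(n : ℤ)) (-(n : ℤ) - m)) ∪
    (Finset.Ico (-(n : ℤ) - m) (-(n : ℤ)) ∪ Finset.Ioc (n : ℤ) ((n : ℤ) - m))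

theorem bs_card (n : ℕ) (m : ℤ) : ((bs n m).card : ℝ) ≤ 2 * |(m : ℝ)| := by
  have h1 : (bs n m).card ≤ (Finset.Ioc ((n : ℤ) - m) n).card +
      (Finset.Ico (-(n : ℤ)) (-(n : ℤ) - m)).card +
      ((Finset.Ico (-(n : ℤ) - m) (-(n : ℤ))).card + (Finset.Ioc (n : ℤ) ((n : ℤ) - m)).card) :=
    (Finset.card_union_le _ _).trans
      (add_le_add (Finset.card_union_le _ _) (Finset.card_union_le _ _))
  simp only [Int.card_Ioc, Int.card_Ico] at h1
  have h2 : ((bs n m).card : ℤ) ≤ 2 * |m| := by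
    rcases le_total 0 m with h | h
    · rw [abs_of_nonneg h]; omega
    · rw [abs_of_nonpos h]; omega
  have h3 : (((bs n m).card : ℤ) : ℝ) ≤ ((2 * |m| : ℤ) : ℝ) := by exact_mod_cast h2
  push_cast at h3
  exact h3

theorem bb_le (n : ℕ) (m u : ℤ) : bb (box n) u (u + m) ≤ if u ∈ bs n m then 1 else 0 := by
  have key : ∀ (A B C : Prop) [Decidable A] [Decidable B] [Decidable C], ¬ (A ∧ B) → (A → C) →
      (B → C) → (if A then (1:ℝ) else 0) + (if B then (1:ℝ) else 0) ≤ if C then (1:ℝ) else 0 := by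
    intro A B C _ _ _ h1 h2 h3
    by_cases hA : A
    · have hB : ¬ B := fun h => h1 ⟨hA, h⟩
      simp [hA, hB, h2 hA]
    · by_cases hB : B
      · simp [hA, hB, h3 hB]
      · simp only [hA, hB, if_false, add_zero]
        split_ifs <;> norm_num
  unfold bb
  refine key _ _ _ (fun h => h.2.1 h.1.1) ?_ ?_
  · rintro ⟨h1, h2⟩
    simp only [box, Finset.mem_Icc] at h1 h2
    simp only [bs, Finset.mem_union, Finset.mem_Ioc, Finset.mem_Ico]
    omega
  · rintro ⟨h1, h2⟩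
    simp only [box, Finset.mem_Icc] at h1 h2
    simp only [bs, Finset.mem_union, Finset.mem_Ioc, Finset.mem_Ico]
    omega

theorem bb_row_summable (n : ℕ) (m : ℤ) : Summable fun u : ℤ => bb (box n) u (u + m) := by
  refine summable_of_ne_finset_zero (s := bs n m) fun u hu => ?_
  have h := bb_le n m u
  rw [if_neg hu] at h
  exact le_antisymm h (bb_nonneg _ _ _)

theorem bb_row_tsum (n : ℕ) (m : ℤ) : ∑' u : ℤ, bb (box n) u (u + m) ≤ 2 * |(m : ℝ)| := by
  have h0 : ∑' u : ℤ, bb (box n) u (u + m) = ∑ u ∈ bs n m, bb (box n) u (u + m) := by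
    refine tsum_eq_sum fun u hu => ?_
    have h := bb_le n m u
    rw [if_neg hu] at h
    exact le_antisymm h (bb_nonneg _ _ _)
  rw [h0]
  refine le_trans (Finset.sum_le_sum fun u hu => (bb_le n m u).trans (by rw [if_pos hu])) ?_
  simpa using bs_card n m

theorem prod_bound (p : ℤ → ℝ) (G : ℤ → ℤ → ℝ) (hp : ∀ m, 0 ≤ p m) (hG : ∀ m u, 0 ≤ G m u)
    (hGs : ∀ m, Summable (G m)) (hGt : ∀ m : ℤ, ∑' u, G m u ≤ 2 * |(m : ℝ)|)
    (hm : Summable fun m : ℤ => |(m : ℝ)| * p m) :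
    (Summable fun r : ℤ × ℤ => p r.1 * G r.1 r.2) ∧
      ∑' r : ℤ × ℤ, p r.1 * G r.1 r.2 ≤ 2 * ∑' m : ℤ, |(m : ℝ)| * p m := by
  have h0 : ∀ r : ℤ × ℤ, 0 ≤ p r.1 * G r.1 r.2 := fun r => mul_nonneg (hp r.1) (hG r.1 r.2)
  have hrow : ∀ m : ℤ, ∑' u, p m * G m u ≤ 2 * (|(m : ℝ)| * p m) := by
    intro m
    rw [tsum_mul_left]
    have := mul_le_mul_of_nonneg_left (hGt m) (hp m)
    linarith
  have h2 : Summable fun r : ℤ × ℤ => p r.1 * G r.1 r.2 := by
    rw [summable_prod_of_nonneg h0]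
    refine ⟨fun m => (hGs m).mul_left (p m), ?_⟩
    exact Summable.of_nonneg_of_le (fun m => tsum_nonneg fun u => mul_nonneg (hp m) (hG m u))
      hrow (hm.mul_left 2)
  refine ⟨h2, ?_⟩
  rw [h2.tsum_prod, ← tsum_mul_left]
  exact Summable.tsum_le_tsum hrow h2.prod (hm.mul_left 2)

theorem bb_sum (p : ℤ → ℝ) (hp : ∀ m, 0 ≤ p m) (hm : Summable fun m : ℤ => |(m : ℝ)| * p m)
    (n : ℕ) : (Summable fun q : ℤ × ℤ => p (q.2 - q.1) * bb (box n) q.1 q.2) ∧
      ∑' q : ℤ × ℤ, p (q.2 - q.1) * bb (box n) q.1 q.2 ≤ 2 * ∑' m : ℤ, |(m : ℝ)| * p m := by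
  obtain ⟨h2, h3⟩ := prod_bound p (fun m u => bb (box n) u (u + m)) hp
    (fun m u => bb_nonneg _ _ _) (fun m => bb_row_summable n m) (fun m => bb_row_tsum n m) hm
  have h1 : ∀ r : ℤ × ℤ, p r.1 * bb (box n) r.2 (r.2 + r.1) =
      p ((e1 r).2 - (e1 r).1) * bb (box n) (e1 r).1 (e1 r).2 := by
    intro r
    have : (e1 r).2 - (e1 r).1 = r.1 := by simp [e1]
    rw [this]
    rfl
  constructor
  · rw [← e1.summable_iff]
    exact h2.congr h1
  · rw [← e1.tsum_eq (fun q : ℤ × ℤ => p (q.2 - q.1) * bb (box n) q.1 q.2)]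
    rw [← tsum_congr h1]
    exact h3

/-! ### the generator and the invariant measure -/

theorem integ {X : Type} [TopologicalSpace X] [CompactSpace X] [MeasurableSpace X]
    [OpensMeasurableSpace X] (ν : Measure X) [IsFiniteMeasure ν]
    {h : X → ℝ} (hh : Continuous h) : Integrable h ν :=
  hh.integrable_of_hasCompactSupport (HasCompactSupport.of_compactSpace _)

theorem int_gen_zero {S : Type} [Fintype S] [DecidableEq S] [TopologicalSpace S]
    [DiscreteTopology S] [MeasurableSpace S] [BorelSpace S] (a : S × S → S × S) (p : ℤ → ℝ)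
    (Q : ℝ → C(ℤ → S, ℝ) →L[ℝ] C(ℤ → S, ℝ)) (hQ : IsSG a p Q) (ν : Measure (ℤ → S))
    [IsProbabilityMeasure ν] (hν : Inv Q ν) (f g : C(ℤ → S, ℝ)) (Λ : Finset ℤ)
    (hf : DependsOn (fun η => f η) (Λ : Set ℤ))
    (hg : ∀ η, g η = genL a p (fun ζ => f ζ) η) : ∫ ω, g ω ∂ν = 0 := by
  have hint : ∀ h : C(ℤ → S, ℝ), Integrable (fun ω => h ω) ν := fun h => integ ν h.continuous
  let φ : C(ℤ → S, ℝ) →L[ℝ] ℝ := LinearMap.mkContinuous
    { toFun := fun h => ∫ ω, h ω ∂ν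
      map_add' := fun h k => integral_add (hint h) (hint k)
      map_smul' := fun c h => integral_const_mul c _ } 1 (fun h => by
        have : ‖∫ ω, h ω ∂ν‖ ≤ ‖h‖ * ν.real Set.univ :=
          norm_integral_le_of_norm_le_const (Filter.Eventually.of_forall fun ω => h.norm_coe_le_norm ω)
        simpa using this)
  have hφ : ∀ h : C(ℤ → S, ℝ), φ h = ∫ ω, h ω ∂ν := fun h => rfl
  have hi : IntervalIntegrable (fun s => Q s g) volume 0 1 := by
    refine ContinuousOn.intervalIntegrable ((hQ.cont g).mono ?_)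
    intro s hs
    rw [Set.uIcc_of_le (by norm_num)] at hs
    exact hs.1
  have hG : (∫ s in (0:ℝ)..1, Q s g) = Q 1 f - f := by
    ext η
    have h1 := ContinuousLinearMap.intervalIntegral_comp_comm
      (ContinuousMap.evalCLM ℝ η : C(ℤ → S, ℝ) →L[ℝ] ℝ) hi
    have h2 : (∫ s in (0:ℝ)..1, Q s g) η = ∫ s in (0:ℝ)..1, Q s g η := by
      exact h1.symm
    rw [h2, ContinuousMap.sub_apply, hQ.gen f g Λ hf hg 1 (by norm_num) η]
  have h3 := ContinuousLinearMap.intervalIntegral_comp_comm φ hi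
  rw [hG, map_sub, hφ, hφ, hν 1 (by norm_num) f, sub_self] at h3
  have h4 : (∫ s in (0:ℝ)..1, φ (Q s g)) = ∫ s in (0:ℝ)..1, ∫ ω, g ω ∂ν := by
    refine intervalIntegral.integral_congr fun s hs => ?_
    rw [Set.uIcc_of_le (by norm_num)] at hs
    exact hν s hs.1 g
  rw [h4] at h3
  simpa using h3

/-! ### the flux estimate -/

theorem continuous_cc (Λ : Finset ℤ) (u v : ℤ) : Continuous fun ω : Cfg2 => cc Λ u v ω := by
  unfold cc
  refine Continuous.add ?_ ?_
  · split_ifs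
    · exact continuous_dd v
    · exact continuous_const
  · split_ifs
    · exact continuous_dd u
    · exact continuous_const

theorem Fn_diff_abs (Λ : Finset ℤ) (u v : ℤ) (ω : Cfg2) :
    |Fn Λ (T a2 u v ω) - Fn Λ ω| ≤ (if u ∈ Λ then 1 else 0) + (if v ∈ Λ then 1 else 0) := by
  by_cases huv : u = v
  · subst huv
    have h0 : T a2 u u ω = ω := by simp [T]
    rw [h0, sub_self, abs_zero]
    split_ifs <;> norm_num
  · rw [Fn_diff Λ u v huv]
    have key : ∀ s t : Bool × Bool, |dd s - dd t| ≤ 1 := by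
      intro s t
      have h1 := dd_nonneg s
      have h2 := dd_le_one s
      have h3 := dd_nonneg t
      have h4 := dd_le_one t
      rw [abs_le]
      constructor <;> linarith
    refine (abs_add_le _ _).trans (add_le_add ?_ ?_)
    · split_ifs
      · exact key _ _
      · simp
    · split_ifs
      · exact key _ _
      · simp

theorem term_summable (p : ℤ → ℝ) (hp : ∀ m, 0 ≤ p m) (hs : Summable p) (Λ : Finset ℤ)
    (ω : Cfg2) :
    Summable fun q : ℤ × ℤ => p (q.2 - q.1) * (Fn Λ (T a2 q.1 q.2 ω) - Fn Λ ω) := by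
  refine Summable.of_norm_bounded ((summ1 p hp hs Λ).add (summ2 p hp hs Λ)) fun q => ?_
  rw [norm_mul, Real.norm_of_nonneg (hp _), ← mul_add]
  exact mul_le_mul_of_nonneg_left (Fn_diff_abs Λ q.1 q.2 ω) (hp _)

theorem gen_le (p : ℤ → ℝ) (hp : ∀ m, 0 ≤ p m) (hs : Summable p)
    (hm : Summable fun m : ℤ => |(m : ℝ)| * p m) (n : ℕ) (u₀ v₀ : ℤ) (hu : u₀ ∈ box n)
    (hv : v₀ ∈ box n) (ω : Cfg2) :
    genL a2 p (fun ζ => Fn (box n) ζ) ω ≤ -(2 * (p (v₀ - u₀) * oo (ω u₀) (ω v₀))) +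
      ∑' q : ℤ × ℤ, p (q.2 - q.1) * cc (box n) q.1 q.2 ω := by
  have hcs : Summable fun q : ℤ × ℤ => p (q.2 - q.1) * cc (box n) q.1 q.2 ω :=
    Summable.of_nonneg_of_le (fun q => mul_nonneg (hp _) (cc_nonneg _ _ _ _))
      (fun q => mul_le_mul_of_nonneg_left (cc_le _ _ _ _) (hp _)) (bb_sum p hp hm n).1
  have hd : HasSum (fun q : ℤ × ℤ => if q = (u₀, v₀) then
      -(2 * (p (v₀ - u₀) * oo (ω u₀) (ω v₀))) else 0)
      (-(2 * (p (v₀ - u₀) * oo (ω u₀) (ω v₀)))) := hasSum_ite_eq _ _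
  rw [← hd.tsum_eq, ← hd.summable.tsum_add hcs]
  unfold genL
  refine Summable.tsum_le_tsum (fun q => ?_) (term_summable p hp hs _ ω)
    (hd.summable.add hcs)
  have h1 := mul_le_mul_of_nonneg_left (Fn_diff_le (box n) q.1 q.2 ω) (hp (q.2 - q.1))
  rw [mul_add] at h1
  refine h1.trans (add_le_add ?_ le_rfl)
  have h2 := mul_nonneg (hp (q.2 - q.1)) (oo_nonneg (ω q.1) (ω q.2))
  by_cases hq : q = (u₀, v₀)
  · subst hq
    simp only [hu, hv, and_self, if_true]
    linarith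
  · rw [if_neg hq]
    split_ifs
    · linarith
    · simp

theorem flux_le (p : ℤ → ℝ) (Q : ℝ → C(Cfg2, ℝ) →L[ℝ] C(Cfg2, ℝ)) (ν : Measure Cfg2)
    (hp : ∀ m, 0 ≤ p m) (hs : Summable p) (hm : Summable fun m : ℤ => |(m : ℝ)| * p m)
    (hQ : IsSG a2 p Q) [IsProbabilityMeasure ν] (hν : Inv Q ν) (n : ℕ) (u₀ v₀ : ℤ)
    (hu : u₀ ∈ box n) (hv : v₀ ∈ box n) (ε : ℝ)
    (hε : ∀ x, x ∉ box n → ∫ ω, dd (ω x) ∂ν ≤ ε) :
    p (v₀ - u₀) * ∫ ω, oo (ω u₀) (ω v₀) ∂ν ≤ ε * ∑' m : ℤ, |(m : ℝ)| * p m := by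
  obtain ⟨g, hg⟩ := hQ.ex (Fn (box n)) (box n) (Fn_dep _)
  have h0 := int_gen_zero a2 p Q hQ ν hν (Fn (box n)) g (box n) (Fn_dep _) hg
  have hbs := bb_sum p hp hm n
  have hF0 : ∀ (q : ℤ × ℤ) (ω : Cfg2), 0 ≤ p (q.2 - q.1) * cc (box n) q.1 q.2 ω := fun q ω =>
    mul_nonneg (hp _) (cc_nonneg _ _ _ _)
  have hFb : ∀ (q : ℤ × ℤ) (ω : Cfg2), ‖p (q.2 - q.1) * cc (box n) q.1 q.2 ω‖ ≤
      p (q.2 - q.1) * bb (box n) q.1 q.2 := fun q ω => by
    rw [Real.norm_of_nonneg (hF0 q ω)]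
    exact mul_le_mul_of_nonneg_left (cc_le _ _ _ _) (hp _)
  have hFc : ∀ q : ℤ × ℤ, Continuous fun ω : Cfg2 => p (q.2 - q.1) * cc (box n) q.1 q.2 ω :=
    fun q => continuous_const.mul (continuous_cc _ _ _)
  have hcont : Continuous fun ω : Cfg2 => ∑' q : ℤ × ℤ, p (q.2 - q.1) * cc (box n) q.1 q.2 ω :=
    continuous_tsum hFc hbs.1 hFb
  have hcint : ∀ q : ℤ × ℤ, ∫ ω, p (q.2 - q.1) * cc (box n) q.1 q.2 ω ∂ν ≤
      ε * (p (q.2 - q.1) * bb (box n) q.1 q.2) := by
    intro q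
    rw [integral_const_mul]
    have h1 : ∫ ω, cc (box n) q.1 q.2 ω ∂ν ≤ ε * bb (box n) q.1 q.2 := by
      unfold cc bb
      by_cases h1 : q.1 ∈ box n <;> by_cases h2 : q.2 ∈ box n
      · simp [h1, h2]
      · simp only [h1, h2, not_false_eq_true, and_true, if_true, not_true_eq_false, false_and,
          if_false, add_zero, mul_one]
        exact hε _ h2
      · simp only [h1, h2, not_false_eq_true, and_true, if_true, not_true_eq_false,
          and_false, if_false, zero_add, mul_one]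
        exact hε _ h1
      · simp [h1, h2]
    calc p (q.2 - q.1) * ∫ ω, cc (box n) q.1 q.2 ω ∂ν
        ≤ p (q.2 - q.1) * (ε * bb (box n) q.1 q.2) := mul_le_mul_of_nonneg_left h1 (hp _)
      _ = ε * (p (q.2 - q.1) * bb (box n) q.1 q.2) := by ring
  have hint0 : ∀ q : ℤ × ℤ, 0 ≤ ∫ ω, p (q.2 - q.1) * cc (box n) q.1 q.2 ω ∂ν := fun q =>
    integral_nonneg (hF0 q)
  have hsum : Summable fun q : ℤ × ℤ => ∫ ω, p (q.2 - q.1) * cc (box n) q.1 q.2 ω ∂ν :=
    Summable.of_nonneg_of_le hint0 hcint (hbs.1.mul_left ε)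
  have hswap : ∑' q : ℤ × ℤ, ∫ ω, p (q.2 - q.1) * cc (box n) q.1 q.2 ω ∂ν =
      ∫ ω, ∑' q : ℤ × ℤ, p (q.2 - q.1) * cc (box n) q.1 q.2 ω ∂ν := by
    refine integral_tsum_of_summable_integral_norm (fun q => integ ν (hFc q)) ?_
    refine hsum.congr fun q => ?_
    refine integral_congr_ae (Filter.Eventually.of_forall fun ω => ?_)
    exact (Real.norm_of_nonneg (hF0 q ω)).symm
  have h1 : ∫ ω, g ω ∂ν ≤ ∫ ω, (-(2 * (p (v₀ - u₀) * oo (ω u₀) (ω v₀))) +
      ∑' q : ℤ × ℤ, p (q.2 - q.1) * cc (box n) q.1 q.2 ω) ∂ν := by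
    refine integral_mono (integ ν g.continuous) (integ ν ?_) fun ω => ?_
    · exact ((continuous_const.mul (continuous_const.mul (continuous_oo u₀ v₀))).neg).add hcont
    · show g ω ≤ _
      rw [hg ω]
      exact gen_le p hp hs hm n u₀ v₀ hu hv ω
  have hc2 : Continuous fun ω : Cfg2 => -(2 * (p (v₀ - u₀) * oo (ω u₀) (ω v₀))) :=
    (continuous_const.mul (continuous_const.mul (continuous_oo u₀ v₀))).neg
  rw [h0, integral_add (integ ν hc2) (integ ν hcont), integral_neg,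
      integral_const_mul, integral_const_mul, ← hswap] at h1
  have h2 : ∑' q : ℤ × ℤ, ∫ ω, p (q.2 - q.1) * cc (box n) q.1 q.2 ω ∂ν ≤
      ε * ∑' q : ℤ × ℤ, p (q.2 - q.1) * bb (box n) q.1 q.2 := by
    rw [← tsum_mul_left]
    exact Summable.tsum_le_tsum hcint hsum (hbs.1.mul_left ε)
  have hε0 : 0 ≤ ε := by
    have hx : ((n : ℤ) + 1) ∉ box n := by simp [box]
    exact (integral_nonneg fun ω => dd_nonneg _).trans (hε _ hx)
  have h3 := mul_le_mul_of_nonneg_left hbs.2 hε0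
  linarith

theorem t_FLUX : S_FLUX := by
  intro p Q ν hp hs hm hneg hQ hν1 hν hbot htop
  have hd : ∀ x : ℤ, ∫ ω, dd (ω x) ∂ν = ν.real {ω : Cfg2 | (ω x).1 ≠ (ω x).2} := by
    intro x
    have hset : MeasurableSet {ω : Cfg2 | (ω x).1 ≠ (ω x).2} := by
      have : {ω : Cfg2 | (ω x).1 ≠ (ω x).2} = (fun ω : Cfg2 => ω x) ⁻¹' {s | s.1 ≠ s.2} := rfl
      rw [this]
      exact measurable_pi_apply x (MeasurableSet.of_discrete)
    rw [← integral_indicator_one hset]
    refine integral_congr_ae (Filter.Eventually.of_forall fun ω => ?_)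
    by_cases h : (ω x).1 ≠ (ω x).2
    · simp [dd, h]
    · simp only [ne_eq, not_not] at h
      simp [dd, h]
  have hpair : ∀ u v : ℤ, v < u → ∫ ω, oo (ω u) (ω v) ∂ν = 0 := by
    intro u v huv
    have hpos := hneg (v - u) (by omega)
    have hnn : 0 ≤ ∫ ω, oo (ω u) (ω v) ∂ν := integral_nonneg fun ω => oo_nonneg _ _
    refine le_antisymm ?_ hnn
    by_contra hcon
    push Not at hcon
    have hK : 0 ≤ ∑' m : ℤ, |(m : ℝ)| * p m := tsum_nonneg fun m =>
      mul_nonneg (abs_nonneg _) (hp m)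
    set K := ∑' m : ℤ, |(m : ℝ)| * p m with hKdef
    have hA : 0 < p (v - u) * ∫ ω, oo (ω u) (ω v) ∂ν := mul_pos hpos hcon
    obtain ⟨ε, hε, hεK⟩ : ∃ ε : ℝ, 0 < ε ∧ ε * K < p (v - u) * ∫ ω, oo (ω u) (ω v) ∂ν := by
      refine ⟨(p (v - u) * ∫ ω, oo (ω u) (ω v) ∂ν) / (K + 1), by positivity, ?_⟩
      rw [div_mul_eq_mul_div, div_lt_iff₀ (by linarith)]
      nlinarith
    have hb : ∀ᶠ x : ℤ in atBot, ν.real {ω : Cfg2 | (ω x).1 ≠ (ω x).2} ≤ ε :=
      (hbot.eventually (gt_mem_nhds hε)).mono fun x hx => le_of_lt hx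
    have ht : ∀ᶠ x : ℤ in atTop, ν.real {ω : Cfg2 | (ω x).1 ≠ (ω x).2} ≤ ε :=
      (htop.eventually (gt_mem_nhds hε)).mono fun x hx => le_of_lt hx
    obtain ⟨A, hA'⟩ := eventually_atBot.1 hb
    obtain ⟨B, hB'⟩ := eventually_atTop.1 ht
    obtain ⟨n, hn⟩ : ∃ n : ℕ, n = A.natAbs + B.natAbs + u.natAbs + v.natAbs := ⟨_, rfl⟩
    have hu' : u ∈ box n := by
      simp only [box, Finset.mem_Icc]
      constructor <;> omega
    have hv' : v ∈ box n := by
      simp only [box, Finset.mem_Icc]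
      constructor <;> omega
    have hout : ∀ x, x ∉ box n → ∫ ω, dd (ω x) ∂ν ≤ ε := by
      intro x hx
      rw [hd x]
      simp only [box, Finset.mem_Icc] at hx
      by_cases hxA : x ≤ A
      · exact hA' x hxA
      · refine hB' x ?_
        by_contra hxB
        apply hx
        constructor <;> omega
    have h1 := flux_le p Q ν hp hs hm hQ hν n u v hu' hv' ε hout
    rw [← hKdef] at h1
    linarith
  have hae : ∀ u v : ℤ, v < u → ∀ᵐ ω ∂ν, ¬ opp (ω u) (ω v) := by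
    intro u v huv
    have h1 := (integral_eq_zero_iff_of_nonneg (μ := ν) (f := fun ω : Cfg2 => oo (ω u) (ω v))
      (fun ω => oo_nonneg _ _) (integ ν (continuous_oo u v))).1 (hpair u v huv)
    filter_upwards [h1] with ω hω hopp
    simp only [oo, hopp, if_true, Pi.zero_apply] at hω
    exact one_ne_zero hω
  have hall : ∀ᵐ ω ∂ν, ∀ u v : ℤ, v < u → ¬ opp (ω u) (ω v) := by
    rw [ae_all_iff]
    intro u
    rw [ae_all_iff]
    intro v
    by_cases huv : v < u
    · filter_upwards [hae u v huv] with ω hω _ using hω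
    · exact Filter.Eventually.of_forall fun ω h => absurd h huv
  filter_upwards [hall] with ω hω
  by_cases h : ∀ x, (ω x).2 = true → (ω x).1 = true
  · exact Or.inl h
  · right
    push Not at h
    obtain ⟨x, hx2, hx1⟩ := h
    intro y hy
    by_contra hy2
    have hx1' : (ω x).1 = false := by simpa using hx1
    have hy2' : (ω y).2 = false := by simpa using hy2
    have hxx : ω x = (false, true) := Prod.ext hx1' hx2
    have hyy : ω y = (true, false) := Prod.ext hy hy2'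
    rcases lt_trichotomy x y with hlt | heq | hgt
    · exact hω y x hlt (Or.inl ⟨hyy, hxx⟩)
    · subst heq
      rw [hxx] at hyy
      simp at hyy
    · exact hω x y hgt (Or.inr ⟨hxx, hyy⟩)

end Pool.Agent.K1H7.EX
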